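import Pool.Agent.Lib.MP_9aaefc_al.Inv

/-!
Control of the order of the twisted reverser by the eigenvalues of the linear part.
-/

set_option autoImplicit false

namespace Pool.Agent.FS.RevOrd

open Module MvPowerSeries Pool.Agent.Lib.MP_9aaefc_al

/-- A multiplicative function that kills a subgroup not containing `-1` and fixes `-1`. -/
theorem exists_char (S : Subgroup ℂˣ) (hS : (-1 : ℂˣ) ∉ S) :
    ∃ c : ℂ → ℂ, c 1 = 1 ∧ (∀ a b, c (a * b) = c a * c b) ∧ c (-1) = -1 ∧
      ∀ u ∈ S, c (u : ℂ) = 1 := by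
  classical
  have hsurj : ∀ {n : ℤ}, n ≠ 0 → Function.Surjective fun a : Additive ℂˣ => n • a := by
    intro n hn a
    obtain ⟨u, rfl⟩ := Additive.ofMul.surjective a
    have hn' : n.natAbs ≠ 0 := Int.natAbs_ne_zero.mpr hn
    obtain ⟨z, hz⟩ := IsAlgClosed.exists_pow_nat_eq (u : ℂ) (Nat.pos_of_ne_zero hn')
    have hz0 : z ≠ 0 := by
      rintro rfl
      rw [zero_pow hn'] at hz
      exact u.ne_zero hz.symm
    let w : ℂˣ := Units.mk0 z hz0
    have hw : w ^ n.natAbs = u := by
      ext; simpa [w] using hz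
    rcases Int.natAbs_eq n with h | h
    · refine ⟨Additive.ofMul w, ?_⟩
      show n • Additive.ofMul w = _
      rw [← ofMul_zpow, h, zpow_natCast, hw]
    · refine ⟨Additive.ofMul w⁻¹, ?_⟩
      show n • Additive.ofMul w⁻¹ = _
      rw [← ofMul_zpow, h, zpow_neg, zpow_natCast, inv_pow, inv_inv, hw]
  let : DivisibleBy (Additive ℂˣ) ℤ := divisibleByOfSMulRightSurj _ _ hsurj
  let Z : Subgroup ℂˣ := Subgroup.zpowers (-1 : ℂˣ)
  let i : Z →* ℂˣ ⧸ S := (QuotientGroup.mk' S).comp Z.subtype
  have hi : Function.Injective i := by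
    rw [injective_iff_map_eq_one]
    rintro ⟨u, k, rfl⟩ hu
    have h1 : (-1 : ℂˣ) ^ k ∈ S := (QuotientGroup.eq_one_iff _).1 hu
    rcases Int.even_or_odd k with hk | hk
    · exact Subtype.ext hk.neg_one_zpow
    · rw [hk.neg_one_zpow] at h1
      exact absurd h1 hS
  let i' : Additive Z →+ Additive (ℂˣ ⧸ S) := MonoidHom.toAdditive i
  let g' : Additive Z →+ Additive ℂˣ := MonoidHom.toAdditive Z.subtype
  have hi' : Function.Injective i' := hi
  obtain ⟨χ, hχ⟩ := (Module.Baer.of_divisible (Additive ℂˣ)).extension_property_addMonoidHom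
    (M := Additive Z) (N := Additive (ℂˣ ⧸ S)) (by exact i') (by exact hi') g'
  let φ : ℂˣ →* ℂˣ := (MonoidHom.toAdditive.symm χ).comp (QuotientGroup.mk' S)
  have hneg : φ (-1) = -1 :=
    congrArg Additive.toMul
      (DFunLike.congr_fun hχ (Additive.ofMul (⟨-1, Subgroup.mem_zpowers _⟩ : Z)))
  have hker : ∀ u ∈ S, φ u = 1 := by
    intro u hu
    have : QuotientGroup.mk' S u = 1 := (QuotientGroup.eq_one_iff _).2 hu
    simp only [φ, MonoidHom.comp_apply, this, map_one]
  have hc : ∀ u : ℂˣ, (if h : (u : ℂ) = 0 then (0 : ℂ) else (φ (Units.mk0 u h) : ℂ)) = φ u := by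
    intro u
    rw [dif_neg u.ne_zero, Units.mk0_val]
  refine ⟨fun a => if h : a = 0 then 0 else (φ (Units.mk0 a h) : ℂ), ?_, ?_, ?_, ?_⟩
  · have := hc 1
    rw [map_one] at this
    exact this
  · intro a b
    by_cases ha : a = 0
    · simp [ha]
    by_cases hb : b = 0
    · simp [hb]
    simp only [mul_eq_zero, ha, hb, or_self, dite_false]
    rw [← Units.val_mul, ← map_mul]
    congr 2
    ext; simp
  · have := hc (-1)
    rw [hneg] at this
    exact this
  · intro u hu
    have := hc u
    rw [hker u hu] at this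
    exact this

theorem fg_of_le {G : Type*} [CommGroup G] {P L : Subgroup G} (hL : L.FG) (h : P ≤ L) : P.FG := by
  rw [Subgroup.fg_iff_add_fg] at hL ⊢
  have h1 : (AddSubgroup.toIntSubmodule (Subgroup.toAddSubgroup L)).FG :=
    (Submodule.fg_iff_addSubgroup_fg _).2 hL
  have h2 := isNoetherian_submodule.1 (isNoetherian_of_fg_of_noetherian _ h1)
    (AddSubgroup.toIntSubmodule (Subgroup.toAddSubgroup P)) h
  exact (Submodule.fg_iff_addSubgroup_fg _).1 h2

/-- In a finitely generated group of complex numbers the number `N` of roots of unity of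
`2`-power order is finite, and `-1` is not an `N`-th power. -/
theorem two_roots (L : Subgroup ℂˣ) (hL : L.FG) :
    0 < {z : ℂˣ | z ∈ L ∧ ∃ j : ℕ, z ^ 2 ^ j = 1}.ncard ∧
      ∀ z ∈ L, z ^ {z : ℂˣ | z ∈ L ∧ ∃ j : ℕ, z ^ 2 ^ j = 1}.ncard ≠ -1 := by
  let P : Subgroup ℂˣ :=
    { carrier := {z : ℂˣ | z ∈ L ∧ ∃ j : ℕ, z ^ 2 ^ j = 1}
      one_mem' := ⟨L.one_mem, 0, one_pow _⟩
      mul_mem' := by
        rintro a b ⟨ha, i, hi⟩ ⟨hb, j, hj⟩
        refine ⟨L.mul_mem ha hb, i + j, ?_⟩
        rw [mul_pow, pow_add, pow_mul, hi, one_pow, mul_comm (2 ^ i), pow_mul, hj, one_pow, one_mul]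
      inv_mem' := by
        rintro a ⟨ha, i, hi⟩
        exact ⟨L.inv_mem ha, i, by rw [inv_pow, hi, inv_one]⟩ }
  have hP : IsPGroup 2 P := fun z => by
    obtain ⟨j, hj⟩ := z.2.2
    exact ⟨j, Subtype.ext hj⟩
  have : Group.FG P := (Group.fg_iff_subgroup_fg P).2 (fg_of_le hL fun z hz => hz.1)
  have : Finite P := CommGroup.finite_of_fg_isMulTorsion P fun z => by
    obtain ⟨j, hj⟩ := hP z
    exact isOfFinOrder_iff_pow_eq_one.2 ⟨2 ^ j, by positivity, hj⟩
  have hcard : {z : ℂˣ | z ∈ L ∧ ∃ j : ℕ, z ^ 2 ^ j = 1}.ncard = Nat.card P := rfl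
  rw [hcard]
  refine ⟨Nat.card_pos, fun z hz h => ?_⟩
  obtain ⟨a, ha⟩ := hP.exists_card_eq
  have hzP : z ∈ P := ⟨hz, a + 1, by rw [pow_succ, pow_mul, ← ha, h]; simp⟩
  have h1 : (⟨z, hzP⟩ : P) ^ Nat.card P = 1 := pow_card_eq_one'
  have h2 : z ^ Nat.card P = 1 := congrArg Subtype.val h1
  rw [h] at h2
  have h3 := congrArg (fun u : ℂˣ => (u : ℂ)) h2
  norm_num at h3

theorem twist_order_of {V : Type*} [AddCommGroup V] [Module ℂ V] [FiniteDimensional ℂ V]
    (h T : End ℂ V) (c : ℂ → ℂ) (N : ℕ) (hc : ∀ μ, h.HasEigenvalue μ → c μ ^ N = 1)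
    (hT : ∀ μ v, v ∈ h.maxGenEigenspace μ → T v = c μ • v) (v : V) : (T ^ N) v = v := by
  refine eig_induction h (P := fun v => (T ^ N) v = v) (by simp) ?_ ?_ v
  · intro x y hx hy
    rw [map_add, hx, hy]
  · intro μ v hv
    by_cases hv0 : v = 0
    · simp [hv0]
    have hμ : h.HasEigenvalue μ := by
      have : h.HasUnifEigenvalue μ ⊤ := by
        intro hbot
        apply hv0
        have : v ∈ (⊥ : Submodule ℂ V) := hbot ▸ hv
        simpa using this
      exact (Module.End.hasUnifEigenvalue_iff_hasUnifEigenvalue_one (by simp)).mp this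
    have hpow : ∀ N : ℕ, (T ^ N) v = c μ ^ N • v := by
      intro N
      induction N with
      | zero => simp
      | succ N ih => rw [pow_succ', Module.End.mul_apply, ih, map_smul, hT _ _ hv, smul_smul,
          pow_succ]
    rw [hpow, hc μ hμ, one_smul]

variable {n : ℕ}

/-- The eigenvalues on `1`-jets are `1` and the eigenvalues of the linear part. -/
theorem eig_jet (H : Fin n → PS n) (hH : ∀ i, constantCoeff (H i) = 0) {μ : ℂ}
    (hμ : Module.End.HasEigenvalue ((bar H hH 2).toLinearMap : End ℂ (Q n 2)) μ) :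
    μ = 1 ∨ μ ∈ spectrum ℂ (Matrix.of fun i j : Fin n => coeff (Finsupp.single j 1) (H i)) := by
  obtain ⟨v, hv⟩ := hμ.exists_hasEigenvector
  obtain ⟨f, rfl⟩ := Ideal.Quotient.mk_surjective v
  have h1 : sig H hH f - μ • f ∈ ordI n 2 := by
    rw [← Ideal.Quotient.eq]
    exact hv.apply_eq_smul
  by_cases h : μ = 1
  · exact Or.inl h
  right
  have hf : constantCoeff f = 0 := by
    have h2 := mem_one_iff.1 (ordI_anti (by norm_num) h1)
    have h3 : constantCoeff (sig H hH (f - algebraMap ℂ (PS n) (constantCoeff f))) = 0 := by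
      rw [sig_apply]
      refine constantCoeff_subst_eq_zero (hasSubst_of_constantCoeff_zero hH) hH ?_
      simp [MvPowerSeries.algebraMap_apply]
    rw [map_sub, AlgHom.commutes, map_sub, sub_eq_zero] at h3
    rw [map_sub, h3, sub_eq_zero] at h2
    have h4 : (1 - μ) * constantCoeff f = 0 := by
      have h5 : constantCoeff (algebraMap ℂ (PS n) (constantCoeff f)) = constantCoeff f := by
        simp [MvPowerSeries.algebraMap_apply]
      have h6 : constantCoeff (μ • f) = μ * constantCoeff f := by simp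
      rw [h5, h6] at h2
      linear_combination h2
    exact (mul_eq_zero.1 h4).resolve_left (sub_ne_zero.2 (Ne.symm h))
  rw [spectrum.mem_iff, Matrix.isUnit_iff_isUnit_det, isUnit_iff_ne_zero, not_not,
    ← Matrix.exists_vecMul_eq_zero_iff]
  refine ⟨fun j => coeff (Finsupp.single j 1) f, fun h0 => hv.2 ?_, ?_⟩
  · rw [Ideal.Quotient.eq_zero_iff_mem]
    have h2 := sub_lin_mem hf
    have h3 : ∀ j, coeff (Finsupp.single j 1) f = 0 := fun j => congrFun h0 j
    simpa [h3] using h2
  · funext l
    have h2 := mem_ordI_iff.1 h1 (Finsupp.single l 1) (by simp)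
    rw [map_sub, sig_apply, coeff_single_subst hH hf, map_smul, smul_eq_mul, sub_eq_zero] at h2
    rw [Matrix.vecMul_sub, Pi.sub_apply, Algebra.algebraMap_eq_smul_one, Matrix.vecMul_smul,
      Matrix.vecMul_one, Pi.smul_apply, smul_eq_mul, ← h2]
    simp [Matrix.vecMul, dotProduct]

theorem main_of_char (F G H : Fin n → PS n) (hF : ∀ i, constantCoeff (F i) = 0)
    (hG : ∀ i, constantCoeff (G i) = 0) (hH : ∀ i, constantCoeff (H i) = 0)
    (hGF : ∀ i, subst G (F i) = (X i : PS n)) (hFG : ∀ i, subst F (G i) = (X i : PS n))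
    (hrev : ∀ i, subst (fun j => subst F (H j)) (F i) = H i)
    (c : ℂ → ℂ) (c1 : c 1 = 1) (cmul : ∀ a b, c (a * b) = c a * c b) (cneg : c (-1) = -1)
    (N : ℕ) (hN : ∀ μ ∈ spectrum ℂ
      (Matrix.of fun i j : Fin n => coeff (Finsupp.single j 1) (H i)), c μ ^ N = 1) :
    ∃ K : Fin n → PS n, (∀ i, constantCoeff (K i) = 0) ∧
      ((fun M : Fin n → PS n => fun i => subst M (K i))^[N]
        (fun i => X i) = (fun i => X i)) ∧
      (∀ i, subst (fun j => subst F (K j)) (F i) = K i) := by
  have sF := hasSubst_of_constantCoeff_zero hF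
  have sG := hasSubst_of_constantCoeff_zero hG
  have sH := hasSubst_of_constantCoeff_zero hH
  have eGF : ∀ f, sig G hG (sig F hF f) = f := by
    intro f
    rw [sig_apply, sig_apply, subst_comp_subst_apply sF sG, funext hGF]
    exact congrFun subst_self f
  have eFG : ∀ f, sig F hF (sig G hG f) = f := by
    intro f
    rw [sig_apply, sig_apply, subst_comp_subst_apply sG sF, funext hFG]
    exact congrFun subst_self f
  have eR : ∀ f, sig F hF (sig H hH (sig F hF f)) = sig H hH f := by
    intro f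
    have sFH : HasSubst (fun j => subst F (H j) : Fin n → PS n) :=
      hasSubst_of_constantCoeff_zero fun j => constantCoeff_subst_eq_zero sF hF (hH j)
    rw [sig_apply, sig_apply, sig_apply, subst_comp_subst_apply sH sF,
      subst_comp_subst_apply sF sFH, funext hrev, sig_apply]
  have e1 : ∀ f, sig H hH (sig F hF f) = sig G hG (sig H hH f) := by
    intro f
    rw [← eR f, eGF]
  have e2 : ∀ f, sig H hH (sig G hG f) = sig F hF (sig H hH f) := by
    intro f
    rw [← eR (sig G hG f), eFG]
  choose T hT using fun k => exists_twist_alg (bar H hH k) c c1 cmul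
  have hcompat : ∀ k l (h : l ≤ k) v, proj h (T k v) = T l (proj h v) := by
    intro k l h v
    refine eig_induction ((bar H hH k).toLinearMap : End ℂ (Q n k))
      (P := fun v => proj h (T k v) = T l (proj h v)) (by simp) ?_ ?_ v
    · intro x y hx hy
      simp only [map_add, hx, hy]
    · intro μ v hv
      have := map_mem_eig ((bar H hH k).toLinearMap : End ℂ (Q n k))
        ((bar H hH l).toLinearMap : End ℂ (Q n l)) (proj h).toLinearMap 1 (by
          intro v
          obtain ⟨f, rfl⟩ := Ideal.Quotient.mk_surjective v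
          simp only [AlgHom.toLinearMap_apply, one_smul, proj_mk, bar_mk]) hv
      rw [one_mul] at this
      rw [hT _ _ _ hv, map_smul]
      exact (hT _ _ _ this).symm
  obtain ⟨K, hK, hKT⟩ := exists_limit T hcompat
  have sK := hasSubst_of_constantCoeff_zero hK
  have hKTpow : ∀ k m f, Ideal.Quotient.mk (ordI n k) ((sig K hK ^ m) f) =
      (((T k).toLinearMap : End ℂ (Q n k)) ^ m) (Ideal.Quotient.mk _ f) := by
    intro k m
    induction m with
    | zero => intro f; simp
    | succ m ih =>
      intro f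
      rw [pow_succ', pow_succ', AlgHom.mul_apply, Module.End.mul_apply, hKT, ih]
      rfl
  refine ⟨K, hK, ?_, ?_⟩
  · have hN2 := twist_order_of ((bar H hH 2).toLinearMap : End ℂ (Q n 2))
      (T 2).toLinearMap c N (fun μ hμ => by
        rcases eig_jet H hH hμ with rfl | h
        · rw [c1, one_pow]
        · exact hN μ h) (hT 2)
    have hψ : ∀ (m k : ℕ), ∀ f ∈ ordI n k, (sig K hK ^ m) f ∈ ordI n k := by
      intro m k
      induction m with
      | zero => intro f hf; simpa using hf
      | succ m ih =>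
        intro f hf
        rw [pow_succ', AlgHom.mul_apply]
        exact sig_mem K hK (ih f hf)
    have hX : ∀ i, (sig K hK ^ N) (X i) - X i ∈ ordI n 2 := by
      intro i
      rw [← Ideal.Quotient.eq, hKTpow, hN2]
    funext i
    have h1 := (iterate_eq K hK N).2 (X i)
    rw [subst_X (hasSubst_of_constantCoeff_zero (iterate_eq K hK N).1)] at h1
    rw [h1]
    apply eq_of_forall_sub_mem
    intro k
    rw [← Ideal.Quotient.eq, hKTpow]
    refine twist_pow_eq_of_unipotent ((bar H hH k).toLinearMap : End ℂ (Q n k))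
      (T k).toLinearMap c (hT k) N k ?_ _
    intro v
    obtain ⟨f, rfl⟩ := Ideal.Quotient.mk_surjective v
    have key : ∀ (j : ℕ) (f : PS n),
        ((((T k).toLinearMap : End ℂ (Q n k)) ^ N - 1) ^ j) (Ideal.Quotient.mk _ f) =
        Ideal.Quotient.mk _ (((((sig K hK ^ N).toLinearMap : End ℂ (PS n)) - 1) ^ j) f) := by
      intro j
      induction j with
      | zero => intro f; simp
      | succ j ih =>
        intro f
        rw [pow_succ', pow_succ', Module.End.mul_apply, Module.End.mul_apply, ih,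
          LinearMap.sub_apply, LinearMap.sub_apply, Module.End.one_apply, Module.End.one_apply,
          map_sub, ← hKTpow]
        rfl
    rw [key, Ideal.Quotient.eq_zero_iff_mem]
    exact unip_pow _ (hψ N) hX k f
  · intro i
    rw [← subst_comp_subst_apply sK sF]
    apply eq_of_forall_sub_mem
    intro k
    have h1 := twist_reverses ((bar H hH k).toLinearMap : End ℂ (Q n k))
      (bar F hF k).toLinearMap (bar G hG k).toLinearMap (T k).toLinearMap c cmul cneg (hT k)
      (by
        intro v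
        obtain ⟨f, rfl⟩ := Ideal.Quotient.mk_surjective v
        simp only [AlgHom.toLinearMap_apply, bar_mk, e1])
      (by
        intro v
        obtain ⟨f, rfl⟩ := Ideal.Quotient.mk_surjective v
        simp only [AlgHom.toLinearMap_apply, bar_mk, e2])
      (Ideal.Quotient.mk _ (X i))
    simp only [AlgHom.toLinearMap_apply, bar_mk] at h1
    rw [← hKT, ← hKT, bar_mk, sig_X, sig_X] at h1
    have h2 := congrArg (bar F hF k) h1
    rw [bar_mk, bar_mk, eFG] at h2
    rw [← Ideal.Quotient.eq, ← h2, sig_apply, sig_apply]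

end Pool.Agent.FS.RevOrd
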